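import Mathlib

/-!
# The conjectured bound for `m` in `σ₃ = σₙ` fails for every `n ≥ 11`

For every `n ≥ 11` the tuple `(1,…,1,2,n-1,c,d)` (with `n-4` ones) is a solution of `σ₃ = σₙ`
whose common value exceeds the bound in the question.  Here, with `N = n-4`,
`c = (N+3) + (N+2)^2 + 2N + N(N-1)/2`, and `d` is the third elementary symmetric polynomial of
the other `n-1` entries.  Twelve times the common value equals the polynomial of the question plus
`81 N(N-1)(N-2)(N-3)(N-4)(N-5)(N-6)`.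
-/

namespace Pool.Agent.Results.MP_c4e411_nt.MBoundFails

open Finset

/-- The `i`-th elementary symmetric polynomial of the entries of the tuple `x`: the sum over all
`i`-element sets of indices of the product of the corresponding entries. -/
def sigma (i : ℕ) {n : ℕ} (x : Fin n → ℕ) : ℕ :=
  ∑ s ∈ powersetCard i (univ : Finset (Fin n)), ∏ j ∈ s, x j

lemma sigma_eq_esymm (i n : ℕ) (x : Fin n → ℕ) :
    sigma i x = ((univ : Finset (Fin n)).val.map x).esymm i := by
  rw [Finset.esymm_map_val, sigma]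

lemma esymm_cons (a : ℕ) (s : Multiset ℕ) (i : ℕ) :
    (a ::ₘ s).esymm (i + 1) = s.esymm (i + 1) + a * s.esymm i := by
  simp only [Multiset.esymm, Multiset.powersetCard_cons, Multiset.map_add, Multiset.sum_add,
    Multiset.map_map, Function.comp_def, Multiset.prod_cons]
  rw [Multiset.sum_map_mul_left]

lemma map_snoc (n : ℕ) (a : ℕ) (x : Fin n → ℕ) :
    ((univ : Finset (Fin (n + 1))).val.map (Fin.snoc x a : Fin (n + 1) → ℕ)) =
      a ::ₘ ((univ : Finset (Fin n)).val.map x) := by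
  rw [Fin.univ_castSuccEmb]
  simp [Function.comp_def]

/-- Pascal-type recursion when the last entry is split off. -/
lemma sigma_snoc (i n : ℕ) (a : ℕ) (x : Fin n → ℕ) :
    sigma (i + 1) (Fin.snoc x a : Fin (n + 1) → ℕ) = sigma (i + 1) x + a * sigma i x := by
  rw [sigma_eq_esymm, sigma_eq_esymm, sigma_eq_esymm, map_snoc, esymm_cons]

lemma sigma_zero (n : ℕ) (x : Fin n → ℕ) : sigma 0 x = 1 := by
  simp [sigma]

lemma sigma_ones (i n : ℕ) : sigma i (fun _ : Fin n => 1) = n.choose i := by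
  simp [sigma]

lemma sigma_self (n : ℕ) (x : Fin n → ℕ) : sigma n x = ∏ j, x j := by
  have h : powersetCard n (univ : Finset (Fin n)) = {univ} := by
    have := Finset.powersetCard_self (univ : Finset (Fin n))
    simpa using this
  rw [sigma, h, Finset.sum_singleton]

lemma prod_snoc (n : ℕ) (a : ℕ) (x : Fin n → ℕ) :
    ∏ j, (Fin.snoc x a : Fin (n + 1) → ℕ) j = (∏ j, x j) * a := by
  rw [Fin.prod_univ_castSucc]
  simp

lemma monotone_snoc (n : ℕ) (a : ℕ) (x : Fin n → ℕ) (hx : Monotone x) (ha : ∀ i, x i ≤ a) :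
    Monotone (Fin.snoc x a : Fin (n + 1) → ℕ) := by
  intro i j hij
  induction j using Fin.lastCases with
  | last =>
    induction i using Fin.lastCases with
    | last => simp
    | cast i => simpa using ha i
  | cast j =>
    induction i using Fin.lastCases with
    | last =>
      exfalso
      have := Fin.castSucc_lt_last j
      exact absurd hij (not_le.mpr this)
    | cast i =>
      simp only [Fin.snoc_castSucc]
      exact hx (by simpa using hij)

lemma forall_snoc (n : ℕ) (a : ℕ) (x : Fin n → ℕ) (P : ℕ → Prop) (hx : ∀ i, P (x i)) (ha : P a) :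
    ∀ i, P ((Fin.snoc x a : Fin (n + 1) → ℕ) i) := by
  intro i
  induction i using Fin.lastCases with
  | last => simpa using ha
  | cast i => simpa using hx i

/-- The tuple `(1,…,1,a,b,c,d)` with `N` ones. -/
def tup (N a b c d : ℕ) : Fin (N + 4) → ℕ :=
  Fin.snoc (Fin.snoc (Fin.snoc (Fin.snoc (fun _ : Fin N => 1) a : Fin (N + 1) → ℕ) b :
    Fin (N + 2) → ℕ) c : Fin (N + 3) → ℕ) d

lemma tup_pos (N a b c d : ℕ) (ha : 0 < a) (hb : 0 < b) (hc : 0 < c) (hd : 0 < d) :
    ∀ i, 0 < tup N a b c d i :=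
  forall_snoc _ _ _ (0 < ·) (forall_snoc _ _ _ (0 < ·) (forall_snoc _ _ _ (0 < ·)
    (forall_snoc _ _ _ (0 < ·) (fun _ => Nat.one_pos) ha) hb) hc) hd

lemma tup_mono (N a b c d : ℕ) (ha : 1 ≤ a) (hb : a ≤ b) (hc : b ≤ c) (hd : c ≤ d) :
    Monotone (tup N a b c d) := by
  have h1 : ∀ i, (Fin.snoc (fun _ : Fin N => 1) a : Fin (N + 1) → ℕ) i ≤ a :=
    forall_snoc _ _ _ (· ≤ a) (fun _ => ha) le_rfl
  have h2 : ∀ i, (Fin.snoc (Fin.snoc (fun _ : Fin N => 1) a : Fin (N + 1) → ℕ) b :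
      Fin (N + 2) → ℕ) i ≤ b :=
    forall_snoc _ _ _ (· ≤ b) (fun i => (h1 i).trans hb) le_rfl
  have h3 : ∀ i, (Fin.snoc (Fin.snoc (Fin.snoc (fun _ : Fin N => 1) a : Fin (N + 1) → ℕ) b :
      Fin (N + 2) → ℕ) c : Fin (N + 3) → ℕ) i ≤ c :=
    forall_snoc _ _ _ (· ≤ c) (fun i => (h2 i).trans hc) le_rfl
  exact monotone_snoc _ _ _ (monotone_snoc _ _ _ (monotone_snoc _ _ _ (monotone_snoc _ _ _
    (fun _ _ _ => le_rfl) (fun _ => ha)) (fun i => (h1 i).trans hb))
    (fun i => (h2 i).trans hc)) (fun i => (h3 i).trans hd)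

lemma sigma_tup_self (N a b c d : ℕ) : sigma (N + 4) (tup N a b c d) = a * b * c * d := by
  rw [sigma_self, tup, prod_snoc, prod_snoc, prod_snoc, prod_snoc]
  simp

lemma sigma_tup_three (N a b c d : ℕ) : sigma 3 (tup N a b c d) =
    N.choose 3 + a * N.choose 2 + b * (N.choose 2 + a * N) + c * (N.choose 2 + a * N + b * (N + a))
      + d * (N.choose 2 + a * N + b * (N + a) + c * (N + a + b)) := by
  simp only [tup, sigma_snoc, sigma_zero, sigma_ones, Nat.choose_one_right, Nat.choose_zero_right,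
    Nat.reduceAdd, zero_add, show (3 : ℕ) = 2 + 1 from rfl, show (2 : ℕ) = 1 + 1 from rfl]
  ring

lemma family (N : ℕ) : sigma 3 (tup N 2 (N + 3) (N + 3 + (N + 2) ^ 2 + 2 * N + N.choose 2)
    (N.choose 3 + 2 * N.choose 2 + (N + 3) * (N.choose 2 + 2 * N) +
      (N + 3 + (N + 2) ^ 2 + 2 * N + N.choose 2) * (N.choose 2 + 2 * N + (N + 3) * (N + 2)))) =
    sigma (N + 4) (tup N 2 (N + 3) (N + 3 + (N + 2) ^ 2 + 2 * N + N.choose 2)
    (N.choose 3 + 2 * N.choose 2 + (N + 3) * (N.choose 2 + 2 * N) +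
      (N + 3 + (N + 2) ^ 2 + 2 * N + N.choose 2) * (N.choose 2 + 2 * N + (N + 3) * (N + 2)))) := by
  rw [sigma_tup_self, sigma_tup_three]
  generalize N.choose 2 = C
  generalize N.choose 3 = T
  ring

lemma choose_three (N : ℕ) (hN : 2 ≤ N) :
    (N.choose 3 : ℚ) = (N : ℚ) * (N - 1) * (N - 2) / 6 := by
  have h3 := Nat.choose_succ_right_eq N 2
  have h4 : ((N.choose 3 * 3 : ℕ) : ℚ) = ((N.choose 2 * (N - 2) : ℕ) : ℚ) := by
    exact_mod_cast congrArg (fun k : ℕ => (k : ℚ)) h3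
  rw [Nat.cast_mul, Nat.cast_mul, Nat.cast_sub hN, Nat.cast_choose_two] at h4
  push_cast at h4
  linarith

/-- For every `n ≥ 11` there is a non-decreasing `n`-tuple of positive integers with
`σ₃ = σₙ` whose common value `m` exceeds the bound stated in the question. -/
theorem result : ∀ n : ℕ, 11 ≤ n → ∃ x : Fin n → ℕ, (∀ i, 0 < x i) ∧ Monotone x ∧
    sigma 3 x = sigma n x ∧
    (1 / 12 : ℚ) * (3021 * (n : ℚ) ^ 6 - 77575 * (n : ℚ) ^ 5 + 920361 * (n : ℚ) ^ 4
      - 6235705 * (n : ℚ) ^ 3 + 24764202 * (n : ℚ) ^ 2 - 53664304 * (n : ℚ) + 48986640)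
      < (sigma n x : ℚ) := by
  intro n hn
  obtain ⟨N, rfl⟩ : ∃ N, n = N + 4 := ⟨n - 4, by omega⟩
  refine ⟨_, tup_pos _ _ _ _ _ ?_ ?_ ?_ ?_, tup_mono _ _ _ _ _ ?_ ?_ ?_ ?_, family N, ?_⟩
  · norm_num
  · omega
  · omega
  · nlinarith [Nat.zero_le (N.choose 3), Nat.zero_le (N.choose 2), sq_nonneg (N + 2)]
  · norm_num
  · omega
  · nlinarith [Nat.zero_le (N.choose 2), sq_nonneg (N + 2)]
  · have h1 : 1 ≤ N.choose 2 + 2 * N + (N + 3) * (N + 2) := by nlinarith
    have h2 := Nat.mul_le_mul_left (N + 3 + (N + 2) ^ 2 + 2 * N + N.choose 2) h1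
    omega
  · rw [sigma_tup_self]
    have hC := Nat.cast_choose_two ℚ N
    have hT := choose_three N (by omega)
    push_cast
    rw [hC, hT]
    obtain ⟨K, rfl⟩ : ∃ K, N = K + 7 := ⟨N - 7, by omega⟩
    push_cast
    have hK : (0 : ℚ) ≤ K := Nat.cast_nonneg K
    have key : (0 : ℚ) < 81 * (K + 7) * (K + 6) * (K + 5) * (K + 4) * (K + 3) * (K + 2) * (K + 1) := by
      positivity
    nlinarith [key]

end Pool.Agent.Results.MP_c4e411_nt.MBoundFails
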